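import Pool.Agent.Y666.SP.Stm2

/-!
# SP2-LIM, SP2-BET: limits of the selected germs, and elements between two selected germs
-/

set_option autoImplicit false

open Cardinal OrderDual

namespace Pool.Agent.Y211.SP

open Pool.Agent.Y666.SP

section
variable {α : Type} [PartialOrder α] {κ : Cardinal.{0}} {E : Set α}

theorem sub_of_kll {g h : KGerm κ E} (hgh : kll g h) : h.carrier ⊆ g.carrier := by
  obtain ⟨p, hp, hq⟩ := hgh
  exact fun q hqh => g.up p hp q (h.sub hqh) (hq q hqh).le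

theorem kll_of_sub_kll {g h k : KGerm κ E} (h1 : h.carrier ⊆ g.carrier) (h2 : kll h k) :
    kll g k := by
  obtain ⟨p, hp, hq⟩ := h2
  exact ⟨p, h1 hp, hq⟩

theorem kll_of_kll_sub {g h k : KGerm κ E} (h1 : kll g h) (h2 : k.carrier ⊆ h.carrier) :
    kll g k := by
  obtain ⟨p, hp, hq⟩ := h1
  exact ⟨p, hp, fun q hqk => hq q (h2 hqk)⟩

end

theorem t_KLIM (hGLB : S_KGLB) : S_KLIM := by
  intro α _ κ E G hS g hg
  by_cases hL : ∃ x ∈ KBB G, x ∈ g.carrier ∧ ∀ h ∈ G, kll g h → x ∉ h.carrier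
  · exact Or.inl hL
  right
  set V : Set (KGerm κ E) := {h | h ∈ G ∧ kll g h} with hV
  have claim : ∀ x ∈ g.carrier, ¬ ∀ h ∈ V, ∀ q ∈ h.carrier, x < q := by
    intro x hx hlt
    apply hL
    refine ⟨x, ⟨g.sub hx, ?_⟩, hx, ?_⟩
    · intro k hk
      rcases hS.ch g hg k hk with h1 | h1 | h1
      · left; rw [← h1]; exact hx
      · right; exact hlt k ⟨hk, h1⟩
      · left; exact sub_of_kll h1 hx
    · intro h hh hgh hxh
      exact lt_irrefl _ (hlt h ⟨hh, hgh⟩ x hxh)
  have hne : V.Nonempty := by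
    by_contra hemp
    rw [Set.not_nonempty_iff_eq_empty] at hemp
    obtain ⟨x, hx⟩ := g.nonempty
    apply claim x hx
    intro h hh
    rw [hemp] at hh
    exact absurd hh (Set.notMem_empty _)
  have hch : Ch kll V := fun a ha b hb => hS.ch a ha.1 b hb.1
  have hnl : ∀ a ∈ V, ∃ b ∈ V, kll b a := by
    intro a ha
    by_contra hcon
    push Not at hcon
    obtain ⟨p, hp, hpq⟩ := ha.2
    apply claim p hp
    intro h' hh' q hq
    rcases hch h' hh' a ha with h1 | h1 | h1
    · rw [h1] at hq; exact hpq q hq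
    · exact absurd h1 (hcon h' hh')
    · exact hpq q (sub_of_kll h1 hq)
  obtain ⟨m, hm1, hm2, hm3, hm4⟩ := hGLB α κ E V hne hch hnl
  have hgm : g ≤ m := hm3 g (fun a ha => sub_of_kll ha.2)
  by_cases hmg : m = g
  · intro z hz
    rw [← hmg] at hz
    obtain ⟨a, ha, hza⟩ := (hm1 z).1 hz
    exact ⟨a, ha.1, ha.2, hza⟩
  · exfalso
    have hlt : g < m := lt_of_le_of_ne hgm (fun h => hmg h.symm)
    have hngm : ¬ kll g m := by
      rintro ⟨p, hp, hpq⟩
      apply claim p hp
      intro h hh q hq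
      exact hpq q ((hm1 q).2 ⟨h, hh, hq⟩)
    apply hngm
    apply hS.sw g hg m hlt
    intro h hh hgh
    obtain ⟨h', hh', hh'h⟩ := hnl h ⟨hh, hgh⟩
    exact kll_of_sub_kll (hm2 h' hh') hh'h

theorem t_KLEAST (hGLB : S_KGLB) : S_KLEAST := by
  intro α _ κ E G hS x₀ hx₀ hex
  by_contra hcon
  push Not at hcon
  set V : Set (KGerm κ E) := {u | u ∈ G ∧ x₀ ∉ u.carrier} with hV
  have hne : V.Nonempty := by
    obtain ⟨u, hu, hxu⟩ := hex
    exact ⟨u, hu, hxu⟩
  have hch : Ch kll V := fun a ha b hb => hS.ch a ha.1 b hb.1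
  have hnl : ∀ a ∈ V, ∃ b ∈ V, kll b a := by
    intro a ha
    obtain ⟨h, hh, hxh, hha, hah⟩ := hcon a ha.1 ha.2
    refine ⟨h, ⟨hh, hxh⟩, ?_⟩
    rcases hS.ch h hh a ha.1 with h1 | h1 | h1
    · exact absurd h1 hha
    · exact h1
    · exact absurd h1 hah
  obtain ⟨m, hm1, hm2, hm3, hm4⟩ := hGLB α κ E V hne hch hnl
  apply hS.mx m
  intro g hg
  by_cases hxg : x₀ ∈ g.carrier
  · left
    refine ⟨x₀, hxg, ?_⟩
    intro q hq
    obtain ⟨u, hu, hqu⟩ := (hm1 q).1 hq
    exact (hx₀.2 u hu.1).resolve_left hu.2 q hqu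
  · right
    obtain ⟨g', hg', hg'g⟩ := hnl g ⟨hg, hxg⟩
    exact kll_of_sub_kll (hm2 g' hg') hg'g

theorem t_KBET (hLIM : S_KLIM) : S_KBET := by
  intro α _ w hw κ _ E G hS g hg h hh hgh
  by_contra hcon
  rw [not_le] at hcon
  have hsub : ∀ S : Set α, S ⊆ {b | b ∈ KBB G ∧ b ∈ g.carrier ∧ ∀ q ∈ h.carrier, b < q} →
      ¬ κ ≤ cd S := by
    intro S hSs hκ
    exact absurd (hκ.trans (Cardinal.mk_le_mk_of_subset hSs)) (not_le.2 hcon)
  have key : ∀ n : ℕ, ∃ g' ∈ G, ∃ h' ∈ G, kll g' h' ∧ g'.carrier ⊆ g.carrier ∧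
      h.carrier ⊆ h'.carrier ∧ ∃ s : Finset α, IsAntichain (· ≤ ·) (s : Set α) ∧ s.card = n ∧
        ∀ q ∈ g'.carrier, (∀ r ∈ h'.carrier, q < r) → ∀ a ∈ s, ¬ q ≤ a ∧ ¬ a ≤ q := by
    intro n
    induction n with
    | zero =>
      refine ⟨g, hg, h, hh, hgh, subset_rfl, subset_rfl, ∅, ?_, rfl, ?_⟩
      · simp
      · intro q _ _ a ha
        exact absurd ha (Finset.notMem_empty _)
    | succ n ih =>
      classical
      obtain ⟨g', hg', h', hh', hgh', h1, h2, s, hs1, hs2, hs3⟩ := ih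
      obtain ⟨p0, hp0, hpq0'⟩ := id hgh'
      obtain ⟨p, hp, hpp0, hpB⟩ : ∃ p ∈ g'.carrier, p ≤ p0 ∧ p ∉ KBB G := by
        by_contra hno
        push Not at hno
        refine hsub {y | y ∈ g'.carrier ∧ y ≤ p0} ?_ (g'.large p0 hp0)
        rintro y ⟨hy, hyp⟩
        exact ⟨hno y hy hyp, h1 hy, fun q hq => lt_of_le_of_lt hyp (hpq0' q (h2 hq))⟩
      have hpq : ∀ q ∈ h'.carrier, p < q := fun q hq => lt_of_le_of_lt hpp0 (hpq0' q hq)
      have hpE : p ∈ E := g'.sub hp
      have hpB2 : ∃ k ∈ G, p ∉ k.carrier ∧ ∃ q0 ∈ k.carrier, ¬ p < q0 := by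
        by_contra hno
        push Not at hno
        apply hpB
        refine ⟨hpE, ?_⟩
        intro k hk
        by_cases hpk : p ∈ k.carrier
        · exact Or.inl hpk
        · exact Or.inr (hno k hk hpk)
      obtain ⟨k, hk, hpk, q0, hq0, hpq0⟩ := hpB2
      have hg'k : kll g' k := by
        rcases hS.ch g' hg' k hk with e | e | e
        · rw [e] at hp; exact absurd hp hpk
        · exact e
        · exact absurd (sub_of_kll e hp) hpk
      have hkh' : kll k h' := by
        rcases hS.ch k hk h' hh' with e | e | e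
        · rw [e] at hq0; exact absurd (hpq q0 hq0) hpq0
        · exact e
        · exact absurd (hpq q0 (sub_of_kll e hq0)) hpq0
      rcases hLIM α κ E G hS k hk with ⟨x, hxB, hxk, hx⟩ | hR
      · exfalso
        have h3 : x ∉ h'.carrier := hx h' hh' hkh'
        have h4 : ∀ q ∈ h'.carrier, x < q := (hxB.2 h' hh').resolve_left h3
        refine hsub {y | y ∈ k.carrier ∧ y ≤ x} ?_ (k.large x hxk)
        rintro y ⟨hy, hyx⟩
        refine ⟨⟨k.sub hy, ?_⟩, h1 (sub_of_kll hg'k hy),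
          fun q hq => lt_of_le_of_lt hyx (h4 q (h2 hq))⟩
        intro l hl
        rcases hS.ch l hl k hk with e | e | e
        · left; rw [e]; exact hy
        · left; exact sub_of_kll e hy
        · right
          intro q hq
          exact lt_of_le_of_lt hyx ((hxB.2 l hl).resolve_left (hx l hl e) q hq)
      · obtain ⟨h'', hh'', hkh'', hq0''⟩ := hR q0 hq0
        have hh''h' : kll h'' h' := by
          rcases hS.ch h'' hh'' h' hh' with e | e | e
          · rw [e] at hq0''; exact absurd (hpq q0 hq0'') hpq0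
          · exact e
          · exact absurd (hpq q0 (sub_of_kll e hq0'')) hpq0
        have hps := hs3 p hp hpq
        have hpn : p ∉ s := fun hin => (hps p hin).1 le_rfl
        refine ⟨k, hk, h'', hh'', hkh'', (sub_of_kll hg'k).trans h1,
          h2.trans (sub_of_kll hh''h'), insert p s, ?_, ?_, ?_⟩
        · rw [Finset.coe_insert]
          refine hs1.insert ?_ ?_
          · intro b hb _
            exact (hps b hb).2
          · intro b hb _
            exact (hps b hb).1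
        · rw [Finset.card_insert_of_notMem hpn, hs2]
        · intro q hq hqr a ha
          rcases Finset.mem_insert.1 ha with rfl | ha
          · refine ⟨fun hle => hpk (k.up q hq _ hpE hle), fun hle => ?_⟩
            exact hpq0 (lt_of_le_of_lt hle (hqr q0 hq0''))
          · exact hs3 q (sub_of_kll hg'k hq) (fun r hr => hqr r (sub_of_kll hh''h' hr)) a ha
  obtain ⟨_, _, _, _, _, _, _, s, hs1, hs2, _⟩ := key (w + 1)
  have := hw s hs1
  omega

end Pool.Agent.Y211.SP
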